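import Pool.Agent.U865.PV.All
import Pool.Agent.U865.PV.Deg

/-!
# MP_ac3185_nt: over which fields the parity conjecture for abelian varieties has to be proved
-/

set_option autoImplicit false

open Module NumberField IntermediateField

namespace Pool.Agent.Results.MP_ac3185_nt.FullTwoPart

open Pool.Agent.U865.PV

/-- The shape of the extension `L / F`: the Galois group has a normal cyclic subgroup of odd order `n`
whose quotient is a `2`-group inducing all automorphisms of order a power of two on the cyclic
quotients of squarefree order `e` of this subgroup (so the largest power of two which divides `φ (e)`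
divides the degree of `L / F`), and the primes dividing the orders of the images of this subgroup in the
automorphism groups of the groups of points of prime order of `A` over `L` are bounded as in
`TorsionBound`. -/
def IsTest {K : Type} [Field K] (A : AbVar K) (F L : Type) [Field F] [Field L] [Algebra K F]
    [Algebra K L] [Algebra F L] [IsScalarTower K F L] : Prop :=
  ∃ c : Gal(L/F), FullAction c ∧ DegreeBound c ∧ TorsionBound A c

/-- If the parity conjecture fails for `A` over `K`, there is a field `F` between `K` and `L` which is
maximal among the fields over which it fails, and `L / F` has the shape `IsTest`. -/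
def MaximalFailure {K : Type} [Field K] [NumberField K] (A : AbVar K)
    (w : ∀ (F : Type) [Field F] [NumberField F] [Algebra K F], ℤˣ) (L : Type) [Field L]
    [NumberField L] [Algebra K L] : Prop :=
  ¬ Parity A w K →
    ∃ (F : Type) (_ : Field F) (_ : NumberField F) (_ : Algebra K F) (_ : Algebra F L)
      (_ : IsScalarTower K F L), IsGalois F L ∧ ¬ Parity A w F ∧ IsTest A F L ∧
      ∀ (F' : Type) [Field F'] [NumberField F'] [Algebra K F'] [Algebra F F'] [Algebra F' L]
        [IsScalarTower K F F'] [IsScalarTower K F' L] [IsScalarTower F F' L],
        finrank F' L < finrank F L → Parity A w F'

/-- **The parity conjecture for abelian varieties has to be proved over fields with special Galois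
groups.** Let `A` be an abelian variety over the number field `K` (a proper and geometrically integral
group scheme), and let `w F` be the root number of `A` over the finite extension `F` of `K`: any
function with the values `1` and `-1` which is given, over the intermediate fields of a Galois extension,
by a multiplicative function of the rational characters of the Galois group which has the value `1` for
the representations on which a number field of even degree acts. The parity conjecture for `A` over
`F` says that the rank of `A(F)` is finite, and even if and only if `w F = 1`.

(1) Let `L` be a finite Galois extension of `K`. If the parity conjecture fails for `A` over `K`, there is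
a field `F` between `K` and `L` over which it fails, which is maximal with this property, such that the
group `G = Gal(L/F)` has a normal cyclic subgroup `C` of odd order `n`, the quotient `G / C` is a
`2`-group, and for every squarefree divisor `e` of `n` every automorphism of order a power of two of
the quotient of order `e` of `C` is induced by an inner automorphism of `G`; in particular the largest
power of two which divides `φ (e)` divides `[L : F]`. If `A` has `p ^ m` points `P` with `p P = 0` over `L`, and an element of `C` acts on these points with prime order `q ≠ p`, then
the subgroup of `(ℤ / q)ˣ` generated by `p` and the elements of order a power of two has at most `m`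
elements.

(2) Let `M` be a finite extension of `K`. The parity conjecture holds for `A` over all finite extensions of
`K` if and only if it holds over those finite extensions `F` of `K` which have a Galois extension `L`
containing `M` with the properties in (1). -/
theorem result {K : Type} [Field K] [NumberField K] (A : AbVar K)
    {w : ∀ (F : Type) [Field F] [NumberField F] [Algebra K F], ℤˣ} (hw : RootNumbers w) :
    (∀ (L : Type) [Field L] [NumberField L] [Algebra K L] [IsGalois K L],
      MaximalFailure A w L) ∧
    ∀ (M : Type) [Field M] [NumberField M] [Algebra K M],
      (∀ (F : Type) [Field F] [NumberField F] [Algebra K F], Parity A w F) ↔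
      ∀ (F L : Type) [Field F] [NumberField F] [Field L] [NumberField L] [Algebra K F]
        [Algebra K L] [Algebra F L] [IsScalarTower K F L] [IsGalois F L],
        Nonempty (M →ₐ[K] L) → IsTest A F L → Parity A w F := by
  have key : ∀ (F₀ L : Type) [Field F₀] [NumberField F₀] [Field L] [NumberField L]
      [Algebra K F₀] [Algebra K L] [Algebra F₀ L] [IsScalarTower K F₀ L] [IsGalois F₀ L],
      ¬ Parity A w F₀ → ∃ (F : Type) (_ : Field F) (_ : NumberField F) (_ : Algebra K F)
      (_ : Algebra F L) (_ : IsScalarTower K F L), IsGalois F L ∧ ¬ Parity A w F ∧ IsTest A F L ∧
      ∀ (F' : Type) [Field F'] [NumberField F'] [Algebra K F'] [Algebra F F'] [Algebra F' L]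
        [IsScalarTower K F F'] [IsScalarTower K F' L] [IsScalarTower F F' L],
        finrank F' L < finrank F L → Parity A w F' := by
    intro F₀ L _ _ _ _ _ _ _ _ _ hfail
    obtain ⟨F, i1, i2, i3, i4, i5, i6, i7, i8, i9, h1, ⟨c, hc⟩, h3⟩ := exists_max (L := L) hw hfail
    exact ⟨F, i1, i2, i3, i5, i7, i9, h1, ⟨c, hc, degreeBound hc, torsionBound A hc⟩, h3⟩
  refine ⟨fun L _ _ _ _ hfail => key K L hfail, fun M _ _ _ => ⟨fun h F L _ _ _ _ _ _ _ _ _ _ _ =>
    h F, fun h F _ _ _ => ?_⟩⟩
  by_contra hfail
  obtain ⟨L, j1, j2, j3, j4, j5, j6, hM⟩ := exists_galois K F M
  obtain ⟨F', i1, i2, i3, i4, i5, i6, h1, h2, -⟩ := key F L hfail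
  exact h1 (h F' L hM h2)

end Pool.Agent.Results.MP_ac3185_nt.FullTwoPart
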