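import Pool.Agent.Results.MP_78d38b_nt.TowersEveryCurve
import Pool.Agent.U80.OG.Root
import Pool.Agent.U80.OG.Pts

/-!
# The parity conjecture over all the Galois extensions of odd degree of the number fields of infinite towers

Let `E : y² = x³ + a x² + b x` with integers `a`, `b` such that `b` and `a² - 4b` are not squares, and let
`E_D : y² = x³ + a D x² + b D² x` be its quadratic twist, `D` squarefree and prime to `2 b (a² - 4b)`. Let
`s(E_D) ≥ 0` be the Selmer rank of the descent via the isogeny of degree two. Let `K_∞(D)` be the field generated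
by the square roots of the tower primes: the primes `q ≡ 1 mod 8` not dividing `D` such that `b` and `a² - 4b` are
not squares modulo `q`, and `q` is a square modulo the odd primes dividing `b(a² - 4b)` that are not neutral
and modulo the prime factors `p` of `D` with `b` or `a² - 4b` a square modulo `p` (see
`MP_78d38b_nt/TowersEveryCurve`; the field `K_∞(D)` has infinite degree if there are neutral primes).

* For ALL the number fields `K ⊆ ℂ` that are Galois over `ℚ` and have an intersection of degree at least four
  with `K_∞(D)` (whatever their Galois groups, their ramification and the bad primes of `E_D`) the root number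
  `w(E_D/K) = ∏_v w(E_D/K_v)` is `1`.
* If `s(E_D) = 0`, then the parity conjecture `(-1) ^ rk E_D(K) = w(E_D/K)` is true, unconditionally, for ALL
  these fields `K` that have odd degree over `K ∩ K_∞(D)`: the rank of `E_D(K)` is even and the root number is
  `1`. (The group of `K` over `ℚ` is then any extension of an elementary 2-group by a group of odd order, with
  an arbitrary field of odd degree, and the rank of `E_D(K)` can be positive.)
* If `s(E) = 0`, this is so for at least the proportion `∏_{i ≥ 0} (1 - 2^{-(2i+1)}) = 0.4194...` of the `D` of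
  the class (the squarefree `D ≡ 1 mod 8` that are nonzero squares modulo the odd primes dividing
  `b(a² - 4b)`, with split and inert prime factors). The curve `y² = x³ + 7 x² + 7 x` is an example.

The local root numbers `w(E / K_v)` are signs; they are `1` if `E` has good reduction at `v` and `-1` if `E` has
split multiplicative reduction at `v`; and since `E` is defined over `ℚ` they are the same for conjugate
primes, for which the completions are isomorphic. These properties are all that we use, that is, we prove the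
equality for every function `w` with these properties (definitions of helper922, as in
`MP_02f36d_nt/ParityOverTwoExtensions`).

The proof. (1) Over `M = K ∩ K_∞(D)` the group `E_D(M)` is finite: this is the theorem of
`MP_78d38b_nt/TowersEveryCurve`. The group of `K` over `M` has odd order and no nonzero fixed vector on
`E_D(K) ⊗ ℚ`, so that the rank is even (`U80/OG/Odd`, `Pts`). (2) Let `H` be a Sylow 2-subgroup of the group of
`K` over `ℚ`. In the product of the local root numbers only the primes of `K` matter that are stable under `H`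
(the others form orbits of even order). A prime over a ramified tower prime has good reduction. For the
other prime numbers `p` one of three different quadratic fields contained in `K` has the property that `p`
splits in it, and `H` acts nontrivially on it as the index of `H` is odd; so there is no `H`-stable prime over
`p` (`U80/OG/Root`). The number of the infinite places is even.
-/

set_option autoImplicit false

open scoped Classical

open WeierstrassCurve NumberField IsDedekindDomain

namespace Pool.Agent.Results.MP_ac3185_nt.OddExtensionsOfTowers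

open Pool.Agent.N922.PX (LocalRootNumbers rootNumber)
open Pool.Agent.Results.MP_78d38b_nt.TowersEveryCurve (curve rank s Twist TowerPrime Tower HasNeutral
  Class Numbers cc)

/-- the parity conjecture holds for `E_D` over `K`, with even rank and root number `1`: for every system
of local root numbers (such systems exist, and only finitely many of the numbers are not `1`)
`(-1) ^ rank = w(E_D / K)` -/
structure ParityHolds (a b : ℤ) (D : ℕ) (K : Type) [Field K] [NumberField K] : Prop where
  even : Even (rank a b D K)
  exist : ∃ w, LocalRootNumbers K (curve a b D ℚ) w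
  almost : ∀ w, LocalRootNumbers K (curve a b D ℚ) w → {v | w v ≠ 1}.Finite
  one : ∀ w, LocalRootNumbers K (curve a b D ℚ) w → rootNumber K w = 1
  parity : ∀ w, LocalRootNumbers K (curve a b D ℚ) w → (-1) ^ rank a b D K = rootNumber K w

/-- the parity conjecture for `E_D` over all the number fields that are Galois over `ℚ` and of odd degree over
their intersection with the tower, if the intersection has degree at least four -/
def AllFields (a b : ℤ) (D : ℕ) : Prop :=
  ∀ (K : IntermediateField ℚ ℂ) [NumberField K] [IsGalois ℚ K] (m : ℕ), Odd m →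
    4 ≤ Module.finrank ℚ (K ⊓ Tower a b D : IntermediateField ℚ ℂ) →
    Module.finrank ℚ K = m * Module.finrank ℚ (K ⊓ Tower a b D : IntermediateField ℚ ℂ) →
    ParityHolds a b D K

section proof

open Pool.Agent.U80.PT
open Pool.Agent.U80.GT (TP Dn sub_TF)

theorem root_of {a b : ℤ} (hb : b ≠ 0) (hc : a ^ 2 - 4 * b ≠ 0) {D : ℕ} (hD : Twist a b D)
    (K : IntermediateField ℚ ℂ) [NumberField K] [IsGalois ℚ K]
    (h4 : 4 ≤ Module.finrank ℚ (K ⊓ Tower a b D : IntermediateField ℚ ℂ))
    {w : HeightOneSpectrum (𝓞 K) → ℤ} (hw : LocalRootNumbers K (curve a b D ℚ) w) :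
    {v | w v ≠ 1}.Finite ∧ rootNumber K w = 1 := by
  set M : IntermediateField ℚ ℂ := K ⊓ Tower a b D with hM
  have hMK : M ≤ K := inf_le_left
  haveI hfd : FiniteDimensional ℚ M :=
    FiniteDimensional.of_injective (IntermediateField.inclusion hMK).toLinearMap
      (IntermediateField.inclusion hMK).injective
  haveI hN : NumberField M := { to_charZero := inferInstance, to_finiteDimensional := hfd }
  obtain ⟨P, hP1, hP2⟩ := sub_TF (a := a) (b := b) (D := D) M inf_le_right
  obtain ⟨S, T, hS, hT, hS0, hT0, hne, hSM, hTM⟩ :=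
    two_roots (P := P) (fun q hq => (hP1 q hq).1) M hP2 h4
  have hD0 : (D : ℤ) ≠ 0 := by exact_mod_cast hD.1.ne_zero
  have e : 16 * (b * (D : ℤ) ^ 2) ^ 2 * ((a * D) ^ 2 - 4 * (b * (D : ℤ) ^ 2)) =
      16 * b ^ 2 * (a ^ 2 - 4 * b) * (D : ℤ) ^ 6 := by ring
  refine Pool.Agent.U80.OG.root_one' (P := P) (fun q hq => ⟨(hP1 q hq).1, (hP1 q hq).2.1⟩) K hS hT hS0 hT0
    hne (hMK hSM) (hMK hTM) (A := a * D) (B := b * (D : ℤ) ^ 2) ?_ (fun q hq h => ?_) hw
  · rw [e]
    exact mul_ne_zero (mul_ne_zero (mul_ne_zero (by norm_num) (pow_ne_zero _ hb)) hc)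
      (pow_ne_zero _ hD0)
  · obtain ⟨h1, h2, h3, h5, h6, -⟩ := hP1 q hq
    rw [e] at h
    have hp : Prime (q : ℤ) := Nat.prime_iff_prime_int.1 h1
    haveI : Fact q.Prime := ⟨h1⟩
    rcases hp.dvd_or_dvd h with h | h
    · rcases hp.dvd_or_dvd h with h | h
      · rcases hp.dvd_or_dvd h with h | h
        · have h7 : q ∣ 2 ^ 4 := by
            have : q ∣ 16 := by exact_mod_cast h
            norm_num
            exact this
          have h8 := (Nat.prime_dvd_prime_iff_eq h1 Nat.prime_two).1 (h1.dvd_of_dvd_pow h7)
          omega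
        · have h7 := hp.dvd_of_dvd_pow h
          rw [← ZMod.intCast_zmod_eq_zero_iff_dvd] at h7
          exact h5 (by rw [h7]; exact IsSquare.zero)
      · rw [← ZMod.intCast_zmod_eq_zero_iff_dvd] at h
        exact h6 (by rw [h]; exact IsSquare.zero)
    · have h7 := hp.dvd_of_dvd_pow h
      exact h3 (by exact_mod_cast h7)

theorem parity_of {a b : ℤ} (nb : ¬ IsSquare b) (nc : ¬ IsSquare (a ^ 2 - 4 * b)) {D : ℕ}
    (hD : Twist a b D) (h0 : s a b D = 0) : AllFields a b D := by
  have hb0 : b ≠ 0 := by
    rintro rfl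
    exact nb ⟨0, by norm_num⟩
  have hc0 : a ^ 2 - 4 * b ≠ 0 := by
    intro h
    exact nc ⟨0, by rw [h]; norm_num⟩
  intro K hNK hG m hm h4 hdeg
  have hD0 : (D : ℤ) ≠ 0 := by exact_mod_cast hD.1.ne_zero
  have hMK : (K ⊓ Tower a b D : IntermediateField ℚ ℂ) ≤ K := inf_le_left
  haveI hfd : FiniteDimensional ℚ (K ⊓ Tower a b D : IntermediateField ℚ ℂ) :=
    FiniteDimensional.of_injective (IntermediateField.inclusion hMK).toLinearMap
      (IntermediateField.inclusion hMK).injective
  obtain ⟨hN, h2, h1⟩ :=
    (Pool.Agent.Results.MP_78d38b_nt.TowersEveryCurve.result.1 a b nb nc).1 D hD _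
      (inf_le_right : (K ⊓ Tower a b D : IntermediateField ℚ ℂ) ≤ Tower a b D) hfd
  obtain ⟨-, h3, -⟩ := h1 h0
  have hB : b * (D : ℤ) ^ 2 ≠ 0 := mul_ne_zero hb0 (pow_ne_zero _ hD0)
  have hC : (a * D) ^ 2 - 4 * (b * (D : ℤ) ^ 2) ≠ 0 := by
    have e : (a * D) ^ 2 - 4 * (b * (D : ℤ) ^ 2) = (a ^ 2 - 4 * b) * (D : ℤ) ^ 2 := by ring
    rw [e]
    exact mul_ne_zero hc0 (pow_ne_zero _ hD0)
  have hev : Even (rank a b D K) :=
    Pool.Agent.U80.OG.rank_even (A := a * D) (B := b * (D : ℤ) ^ 2) hB hC K _ hMK hm hdeg h3
  refine ⟨hev, Pool.Agent.N922.PX.exists_local K _, fun w hw => (root_of hb0 hc0 hD K h4 hw).1,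
    fun w hw => (root_of hb0 hc0 hD K h4 hw).2, fun w hw => ?_⟩
  rw [hev.neg_one_pow, (root_of hb0 hc0 hD K h4 hw).2]

end proof

/-- **Theorem.** -/
theorem result :
    (∀ a b : ℤ, ¬ IsSquare b → ¬ IsSquare (a ^ 2 - 4 * b) →
      (∀ D : ℕ, Twist a b D → ∀ (K : IntermediateField ℚ ℂ) [NumberField K] [IsGalois ℚ K],
        4 ≤ Module.finrank ℚ (K ⊓ Tower a b D : IntermediateField ℚ ℂ) →
          ∀ w, LocalRootNumbers K (curve a b D ℚ) w → rootNumber K w = 1) ∧
      (∀ D : ℕ, Twist a b D → s a b D = 0 → AllFields a b D) ∧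
      (HasNeutral a b → ∀ D : ℕ, Twist a b D →
        {q : ℕ | TowerPrime a b D q}.Infinite ∧ ¬ FiniteDimensional ℚ (Tower a b D)) ∧
      (∀ D : ℕ, Class a b D → Twist a b D) ∧
      (s a b 1 = 0 → ∀ x : ℝ, x < cc → ∀ᶠ X : ℕ in Filter.atTop,
        x * ((Numbers a b (fun _ => True) X).card : ℝ) ≤
          ((Numbers a b (AllFields a b) X).card : ℝ))) ∧
    0.4194 < cc ∧ cc < 0.4195 ∧ s 7 7 1 = 0 ∧ HasNeutral 7 7 := by
  obtain ⟨hall, h1, h2, h3, h4⟩ := Pool.Agent.Results.MP_78d38b_nt.TowersEveryCurve.result
  refine ⟨fun a b nb nc => ?_, h1, h2, h3, h4⟩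
  have hb0 : b ≠ 0 := by
    rintro rfl
    exact nb ⟨0, by norm_num⟩
  have hc0 : a ^ 2 - 4 * b ≠ 0 := by
    intro h
    exact nc ⟨0, by rw [h]; norm_num⟩
  obtain ⟨-, g2, g3, g4⟩ := hall a b nb nc
  refine ⟨fun D hD K _ _ h4 w hw => (root_of hb0 hc0 hD K h4 hw).2,
    fun D hD h0 => parity_of nb nc hD h0, g2, fun D hD => (g3 D hD).1, fun hs x hx => ?_⟩
  filter_upwards [g4.eventually_const_lt hx] with X hX
  have hle : ((Numbers a b (fun D => s a b D = s a b 1) X).card : ℝ) ≤
      ((Numbers a b (AllFields a b) X).card : ℝ) := by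
    refine Nat.cast_le.2 (Finset.card_le_card fun D hD => ?_)
    rw [Pool.Agent.Results.MP_78d38b_nt.TowersEveryCurve.mem_num] at hD ⊢
    exact ⟨hD.1, hD.2.1, parity_of nb nc (g3 D hD.2.1).1 (hD.2.2.trans hs)⟩
  rcases Nat.eq_zero_or_pos (Numbers a b (fun _ => True) X).card with h | h
  · rw [h, Nat.cast_zero, mul_zero]
    exact Nat.cast_nonneg _
  · have h5 : (0 : ℝ) < ((Numbers a b (fun _ => True) X).card : ℝ) := by exact_mod_cast h
    exact ((lt_div_iff₀ h5).1 hX).le.trans hle

end Pool.Agent.Results.MP_ac3185_nt.OddExtensionsOfTowers
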