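import Pool.Agent.U845.UP.Fin
import Pool.Agent.N922.PX.Ex
import Pool.Agent.U693.QN.Om

/-!
# The parity conjecture for products of elliptic curves, over infinitely many number fields at once, for a
# positive proportion of all tuples of elliptic curves over `ℚ`

Let `K / ℚ` be any Galois extension of degree `2 ^ m`, `m ≥ 1`, in which the prime `2` is unramified and not
inert, and let `n ≥ 1`.

Theorem. There are a finite set `S` of primes, all `1` modulo `8`, and `c > 0`, such that at least `c` times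
the number of ALL `n`-tuples `(E_1, …, E_n)` of elliptic curves `E_i : y ^ 2 = x ^ 3 + A_i x + B_i` over `ℚ`,
ordered by height, have the following property. Let `C` be the class of all the finite Galois extensions
`M / ℚ` of 2-power degree `> 1` in which `2` is unramified and not inert, in which all `q ∈ S` split
completely and in which only such primes `ℓ` are ramified modulo which NONE of the `x ^ 3 + A_i x + B_i` has
a zero. Then `K` is in `C`, the class `C` is closed under composita, for a set of primes `ℓ` of positive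
lower density `ℚ(√ℓ)` is in `C`; and the parity conjecture `(-1) ^ rk A(M) = w(A / M)` holds,
unconditionally, for ALL the abelian varieties `A = E_1 ^ {a_1} × ⋯ × E_n ^ {a_n}` (so for abelian varieties
of all dimensions) over ALL `M ∈ C`. More precisely `A(M) = 0` and `w(A / M) = 1` for all of them. (The
Weil restrictions of these `A` from `M` to subfields `F` of `M`, for example to `ℚ`, are abelian varieties
with the same groups of points and root numbers, so the parity conjecture holds for them as well; this is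
not formalized.)

The local root numbers `w(E_i / M_v)` are signs; they are `1` if `E_i` has good reduction at `v` and `-1` if
`E_i` has split multiplicative reduction at `v`; and since `E_i` is defined over `ℚ` they are the same for
conjugate primes, for which the completions are isomorphic. These properties are all that we use, that
is, we prove the equality for all functions `w_i` with these properties, in particular for the local root
numbers defined by the local constants. The local root number of the product is the product of the local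
root numbers of the factors; it is `(-1) ^ dim A` at every infinite place.

What is new. For one curve (`n = 1`, `A = E`) this is helper845's `MP_02f36d_nt.UniformOverTwoExtensions`. The
classes of several curves could have only `K` and its subfields in common; new is that for a positive
proportion of all `n`-tuples ONE infinite class, closed under composita, works for all the curves, and so for
all the abelian varieties with these factors: by Chebotarev's theorem for the compositum of the `n` cubic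
splitting fields and of `ℚ(√-1)`, `ℚ(√2)`, `ℚ(√q)`, `q ∈ S`, there is a positive density of primes `ℓ` modulo
which none of the `n` cubic polynomials has a zero and which have the necessary residue symbols; the
automorphism without fixed zeros is the fourth power of a Frobenius automorphism at the ramified prime two
(`Pool/Agent/U693/QN`). The points over the fields of the class of one curve are my
`MP_775b3b_nt.UniformOverTwoExtensions` (`U693/UN`), the root numbers are `U845/UP` (helper845) and the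
projects PQ, PV, PX (helper922 and others).
-/

set_option autoImplicit false
set_option linter.all false

namespace Pool.Agent.Results.MP_ac3185_nt.ProductsOverInfiniteClass

open Filter NumberField IsDedekindDomain
open scoped Classical

/-- The equation `y ^ 2 = x ^ 3 + A x + B` with integers `A`, `B` defines an elliptic curve, and
there is no prime `p` with `p ^ 4 ∣ A` and `p ^ 6 ∣ B`. Every elliptic curve over `ℚ` is isomorphic to
exactly one of these. -/
structure IsMinimal (A B : ℤ) : Prop where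
  elliptic : 4 * A ^ 3 + 27 * B ^ 2 ≠ 0
  minimal : ∀ p : ℕ, p.Prime → ¬ ((p : ℤ) ^ 4 ∣ A ∧ (p : ℤ) ^ 6 ∣ B)

/-- The height. -/
def height (p : ℤ × ℤ) : ℤ := max (4 * |p.1| ^ 3) (27 * p.2 ^ 2)

/-- The set of all elliptic curves over `ℚ` of height at most `X`. -/
def Curves (X : ℕ) : Set (ℤ × ℤ) := {p | IsMinimal p.1 p.2 ∧ height p ≤ X}

/-- The curve `y ^ 2 = x ^ 3 + A x + B` over `ℚ`, for `p = (A, B)`. -/
def curve (p : ℤ × ℤ) : WeierstrassCurve ℚ := ⟨0, 0, 0, (p.1 : ℚ), (p.2 : ℚ)⟩

section defs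

variable {F : Type} [Field F] [NumberField F]

/-- The coefficients of the equation are integral at the prime `v`. -/
structure IntegralAt (v : HeightOneSpectrum (𝓞 F)) (W : WeierstrassCurve F) : Prop where
  a₁ : v.valuation F W.a₁ ≤ 1
  a₂ : v.valuation F W.a₂ ≤ 1
  a₃ : v.valuation F W.a₃ ≤ 1
  a₄ : v.valuation F W.a₄ ≤ 1
  a₆ : v.valuation F W.a₆ ≤ 1

/-- Good reduction at `v`: there is a Weierstrass equation with coefficients integral at `v` whose
discriminant is a unit at `v`. -/
def GoodReduction (v : HeightOneSpectrum (𝓞 F)) (W : WeierstrassCurve F) : Prop :=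
  ∃ C : WeierstrassCurve.VariableChange F, IntegralAt v (C • W) ∧ v.valuation F (C • W).Δ = 1

/-- Split multiplicative reduction at `v`: there is a Weierstrass equation with coefficients
integral at `v` whose reduction has the singular point `(0, 0)` (`a₃`, `a₄`, `a₆` are zero modulo `v`),
which is a node (`b₂ = a₁ ^ 2 + 4 a₂` is a unit at `v`) with tangents `y = α x` defined over the residue
field (`α ^ 2 + a₁ α - a₂` is zero modulo `v`). -/
def SplitMultiplicative (v : HeightOneSpectrum (𝓞 F)) (W : WeierstrassCurve F) : Prop :=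
  ∃ C : WeierstrassCurve.VariableChange F, IntegralAt v (C • W) ∧
    v.valuation F (C • W).a₃ < 1 ∧ v.valuation F (C • W).a₄ < 1 ∧ v.valuation F (C • W).a₆ < 1 ∧
    v.valuation F (C • W).b₂ = 1 ∧
    ∃ α : F, v.valuation F α ≤ 1 ∧
      v.valuation F (α ^ 2 + (C • W).a₁ * α - (C • W).a₂) < 1

variable (F)

/-- The properties of the local root numbers `w(E / F_v)` at the primes `v` of `F`, for an elliptic
curve `E` over `ℚ`, which we use: they are signs, `1` for good reduction, `-1` for split multiplicative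
reduction, and the same for conjugate primes. -/
structure LocalRootNumbers (E : WeierstrassCurve ℚ) (w : HeightOneSpectrum (𝓞 F) → ℤ) :
    Prop where
  sign : ∀ v, w v = 1 ∨ w v = -1
  good : ∀ v, GoodReduction v (E.baseChange F) → w v = 1
  split : ∀ v, SplitMultiplicative v (E.baseChange F) → w v = -1
  conj : ∀ (σ : F ≃ₐ[ℚ] F) (v v' : HeightOneSpectrum (𝓞 F)),
    (∀ x : F, v'.valuation F x = v.valuation F (σ x)) → w v' = w v

/-- The group `E(F)`. -/
def Pts (p : ℤ × ℤ) : Type := ((curve p).baseChange F).toAffine.Point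

noncomputable instance instPts (p : ℤ × ℤ) : AddCommGroup (Pts F p) :=
  (inferInstance : AddCommGroup ((curve p).baseChange F).toAffine.Point)

section product

variable {n : ℕ} (p : Fin n → ℤ × ℤ) (a : Fin n → ℕ)

/-- The group `A(F)` for `A = E_1 ^ {a_1} × ⋯ × E_n ^ {a_n}`. -/
abbrev PtsA : Type := ∀ i : Fin n, Fin (a i) → Pts F (p i)

/-- The rank of `A(F)`. -/
noncomputable def rank : ℕ := Module.finrank ℤ (PtsA F p a)

/-- The local root numbers of `A` at the primes: the products of those of the factors. -/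
def localA (w : Fin n → HeightOneSpectrum (𝓞 F) → ℤ) (v : HeightOneSpectrum (𝓞 F)) : ℤ :=
  ∏ i, w i v ^ a i

/-- The global root number of `A`: the product of the local root numbers at all places; it is `(-1) ^ dim A`
at every infinite place, `dim A = a_1 + ⋯ + a_n`. -/
noncomputable def rootNumber (w : Fin n → HeightOneSpectrum (𝓞 F) → ℤ) : ℤ :=
  ((-1) ^ ∑ i, a i) ^ Nat.card (InfinitePlace F) * ∏ᶠ v, localA F a w v

/-- The parity conjecture holds for `A` over `F`, with `A(F) = 0` and root number `1`: for all systems of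
local root numbers of the factors (such systems exist, and there are only finitely many primes at which one
of them is not `1`) `(-1) ^ rank = w(A / F)`. -/
structure ParityHolds : Prop where
  zero : Subsingleton (PtsA F p a)
  exist : ∃ w : Fin n → HeightOneSpectrum (𝓞 F) → ℤ, ∀ i, LocalRootNumbers F (curve (p i)) (w i)
  finite : ∀ w : Fin n → HeightOneSpectrum (𝓞 F) → ℤ,
    (∀ i, LocalRootNumbers F (curve (p i)) (w i)) → ∀ i, {v | w i v ≠ 1}.Finite
  one : ∀ w : Fin n → HeightOneSpectrum (𝓞 F) → ℤ,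
    (∀ i, LocalRootNumbers F (curve (p i)) (w i)) → rootNumber F a w = 1
  parity : ∀ w : Fin n → HeightOneSpectrum (𝓞 F) → ℤ,
    (∀ i, LocalRootNumbers F (curve (p i)) (w i)) → (-1) ^ rank F p a = rootNumber F a w

end product

end defs

section tuples

variable {n : ℕ}

/-- The common class `C` for `E_i : y ^ 2 = x ^ 3 + A_i x + B_i`, `p i = (A_i, B_i)`: the number fields `M` which
are Galois over `ℚ`, of degree a power `2 ^ m`, `m ≥ 1`, in which `2` is unramified (no prime ideal `𝔭` has
`2 ∈ 𝔭 ^ 2`) and not inert (the ideal `(2)` is not prime), in which all `q ∈ S` split completely (they are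
unramified, and every integer of `M` is congruent to a rational integer modulo each prime over `q`)
and in which only such primes `ℓ` are ramified modulo which none of the `x ^ 3 + A_i x + B_i` has a zero. -/
structure InClass (S : Finset ℕ) (p : Fin n → ℤ × ℤ) (M : Type) [Field M] [NumberField M] :
    Prop where
  galois : IsGalois ℚ M
  degree : ∃ m : ℕ, 1 ≤ m ∧ Module.finrank ℚ M = 2 ^ m
  two : ∀ 𝔭 : Ideal (𝓞 M), 𝔭.IsPrime → (2 : 𝓞 M) ∉ 𝔭 ^ 2
  inert : ¬ (Ideal.span {(2 : 𝓞 M)}).IsPrime
  split : ∀ q ∈ S, ∀ 𝔭 : Ideal (𝓞 M), 𝔭.IsPrime → (q : 𝓞 M) ∈ 𝔭 →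
    (q : 𝓞 M) ∉ 𝔭 ^ 2 ∧ ∀ x : 𝓞 M, ∃ c : ℤ, x - (c : 𝓞 M) ∈ 𝔭
  ramified : ∀ ℓ : ℕ, ℓ.Prime → (∃ 𝔭 : Ideal (𝓞 M), 𝔭.IsPrime ∧ (ℓ : 𝓞 M) ∈ 𝔭 ^ 2) →
    ∀ (i : Fin n) (z : ℤ), ¬ (ℓ : ℤ) ∣ z ^ 3 + (p i).1 * z + (p i).2

/-- Every number field which is generated by a square root of `ℓ` is in the class. -/
def HasQuadratic (S : Finset ℕ) (p : Fin n → ℤ × ℤ) (ℓ : ℕ) : Prop :=
  ∀ (M : Type) [Field M] [NumberField M] (r : M), r ^ 2 = (ℓ : M) →
    (∀ T : Subfield M, r ∈ T → T = ⊤) → InClass S p M

/-- The property of the tuple `p`. -/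
structure Good (K : Type) [Field K] [NumberField K] (S : Finset ℕ) (p : Fin n → ℤ × ℤ) :
    Prop where
  /-- `K` is in the class. -/
  base : InClass S p K
  /-- The class is closed under composita. -/
  composita : ∀ (M₁ M₂ N : Type) [Field M₁] [NumberField M₁] [Field M₂] [NumberField M₂] [Field N]
    [NumberField N] [Algebra M₁ N] [Algebra M₂ N],
    (∀ T : Subfield N, (∀ x : M₁, algebraMap M₁ N x ∈ T) → (∀ x : M₂, algebraMap M₂ N x ∈ T) →
      T = ⊤) → InClass S p M₁ → InClass S p M₂ → InClass S p N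
  /-- A set of primes `ℓ` of positive lower density for which `ℚ(√ℓ)` is in the class. -/
  many : ∃ δ : ℝ, 0 < δ ∧ ∀ᶠ N : ℕ in atTop, δ * (Nat.primeCounting N : ℝ) ≤
    (((Finset.range (N + 1)).filter fun ℓ => ℓ.Prime ∧ HasQuadratic S p ℓ).card : ℝ)
  /-- The parity conjecture holds over all fields in the class, for all products of powers. -/
  parity : ∀ (M : Type) [Field M] [NumberField M], InClass S p M → ∀ a : Fin n → ℕ,
    ParityHolds M p a

/-- The `n`-tuples of elliptic curves over `ℚ` of height at most `X` with the property. -/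
def GoodTuples (K : Type) [Field K] [NumberField K] (S : Finset ℕ) (n X : ℕ) :
    Set (Fin n → ℤ × ℤ) := {p | (∀ i, p i ∈ Curves X) ∧ Good K S p}

end tuples

section tr

variable {F : Type} [Field F] [NumberField F]

theorem int_iff (v : HeightOneSpectrum (𝓞 F)) (W : WeierstrassCurve F) :
    IntegralAt v W ↔ Pool.Agent.N922.PX.IntegralAt v W :=
  ⟨fun h => ⟨h.1, h.2, h.3, h.4, h.5⟩, fun h => ⟨h.1, h.2, h.3, h.4, h.5⟩⟩

theorem good_iff (v : HeightOneSpectrum (𝓞 F)) (W : WeierstrassCurve F) :
    GoodReduction v W ↔ Pool.Agent.N922.PX.GoodReduction v W := by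
  unfold GoodReduction Pool.Agent.N922.PX.GoodReduction
  simp only [int_iff]

theorem split_iff (v : HeightOneSpectrum (𝓞 F)) (W : WeierstrassCurve F) :
    SplitMultiplicative v W ↔ Pool.Agent.N922.PX.SplitMultiplicative v W := by
  unfold SplitMultiplicative Pool.Agent.N922.PX.SplitMultiplicative
  simp only [int_iff]

theorem local_iff (p : ℤ × ℤ) (w : HeightOneSpectrum (𝓞 F) → ℤ) :
    LocalRootNumbers F (curve p) w ↔
      Pool.Agent.N922.PX.LocalRootNumbers F (Pool.Agent.N922.PX.curve p) w := by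
  have e : curve p = Pool.Agent.N922.PX.curve p := rfl
  rw [e]
  constructor
  · rintro ⟨h1, h2, h3, h4⟩
    exact ⟨h1, fun v h => h2 v ((good_iff v _).2 h), fun v h => h3 v ((split_iff v _).2 h), h4⟩
  · rintro ⟨h1, h2, h3, h4⟩
    exact ⟨h1, fun v h => h2 v ((good_iff v _).1 h), fun v h => h3 v ((split_iff v _).1 h), h4⟩

end tr

theorem crv_iff (X : ℕ) (p : ℤ × ℤ) : Pool.Agent.N922.PQ.Crv X p.1 p.2 ↔ p ∈ Curves X := by
  constructor
  · rintro ⟨h1, h2, h3, h4⟩
    exact ⟨⟨h1, h2⟩, max_le h3 h4⟩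
  · rintro ⟨⟨h1, h2⟩, h3⟩
    exact ⟨h1, h2, (le_max_left _ _).trans h3, (le_max_right _ _).trans h3⟩

theorem nonempty {X : ℕ} (hX : 27 ≤ X) : ((1, 1) : ℤ × ℤ) ∈ Curves X := by
  refine ⟨⟨by norm_num, ?_⟩, ?_⟩
  · rintro p hp ⟨h, -⟩
    have h1 : ((p : ℤ)) ∣ 1 := (dvd_pow_self (p : ℤ) (by norm_num)).trans h
    have h2 : p ∣ 1 := by exact_mod_cast h1
    exact hp.one_lt.ne' (Nat.dvd_one.1 h2)
  · have : height ((1, 1) : ℤ × ℤ) = 27 := by
      simp [height]
    rw [this]
    exact_mod_cast hX

theorem isPr_iff {q : ℕ} : Pool.Agent.N922.PQ.IsPr (q : ℤ) ↔ q.Prime := by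
  constructor
  · intro h
    exact Nat.prime_iff_prime_int.2 h.2
  · intro h
    exact ⟨by exact_mod_cast h.pos, Nat.prime_iff_prime_int.1 h⟩

/-- The class in terms of the class of the library. -/
theorem class_iff {n : ℕ} (hn : 1 ≤ n) {S : Finset ℤ} (hS : ∀ Q ∈ S, Pool.Agent.N922.PQ.IsPr Q)
    (p : Fin n → ℤ × ℤ) (M : Type) [Field M] [NumberField M] :
    InClass (S.image Int.toNat) p M ↔
      Pool.Agent.U693.QN.InT S p M ∧ 1 < Module.finrank ℚ M ∧
        ¬ (Ideal.span {(2 : 𝓞 M)}).IsPrime := by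
  have hto : ∀ P : ℤ, Pool.Agent.N922.PQ.IsPr P → ((P.toNat : ℕ) : ℤ) = P := fun P hP =>
    Int.toNat_of_nonneg hP.1.le
  constructor
  · intro h
    obtain ⟨m, hm1, hm⟩ := h.degree
    refine ⟨fun i => ⟨h.galois, ⟨m, hm⟩, h.two, fun Q hQ 𝔭 h𝔭 hq => ?_, fun P hP hex => ?_⟩, ?_,
      h.inert⟩
    · have h1 := h.split Q.toNat (Finset.mem_image_of_mem _ hQ) 𝔭 h𝔭
      have e : ((Q.toNat : ℕ) : 𝓞 M) = (Q : 𝓞 M) := by
        rw [← Int.cast_natCast, hto Q (hS Q hQ)]
      rw [e] at h1
      exact h1 hq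
    · have h1 := h.ramified P.toNat (isPr_iff.1 (by rw [hto P hP]; exact hP))
      have e : ((P.toNat : ℕ) : 𝓞 M) = (P : 𝓞 M) := by
        rw [← Int.cast_natCast, hto P hP]
      rw [e, hto P hP] at h1
      exact h1 hex i
    · rw [hm]
      exact Nat.one_lt_two_pow (by omega)
  · rintro ⟨hh, hd, hi⟩
    have h := hh ⟨0, hn⟩
    obtain ⟨m, hm⟩ := h.degree
    refine ⟨h.galois, ⟨m, ?_, hm⟩, h.two, hi, fun q hq 𝔭 h𝔭 hmm => ?_, fun ℓ hℓ hex i => ?_⟩
    · rcases Nat.eq_zero_or_pos m with rfl | h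
      · rw [hm, pow_zero] at hd
        omega
      · exact h
    · obtain ⟨Q, hQ, rfl⟩ := Finset.mem_image.1 hq
      have h1 := h.split Q hQ 𝔭 h𝔭
      have e : ((Q.toNat : ℕ) : 𝓞 M) = (Q : 𝓞 M) := by
        rw [← Int.cast_natCast, hto Q (hS Q hQ)]
      rw [e] at hmm ⊢
      exact h1 hmm
    · have h1 := (hh i).ram (ℓ : ℤ) (isPr_iff.2 hℓ)
      rw [Int.cast_natCast] at h1
      exact h1 hex

/-- The degree of a field with the square root of a prime number is not one. -/
theorem quad_deg {M : Type} [Field M] [NumberField M] {ℓ : ℕ} (hℓ : ℓ.Prime) {r : M}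
    (hr : r ^ 2 = (ℓ : M)) : 1 < Module.finrank ℚ M := by
  by_contra h
  have h1 : Module.finrank ℚ M = 1 := by
    have : 0 < Module.finrank ℚ M := Module.finrank_pos
    omega
  have h2 : (⊥ : Subalgebra ℚ M) = ⊤ := Subalgebra.bot_eq_top_of_finrank_eq_one h1
  have h3 : r ∈ (⊥ : Subalgebra ℚ M) := by
    rw [h2]
    exact Algebra.mem_top
  obtain ⟨q, hq⟩ := Algebra.mem_bot.1 h3
  have h4 : (q ^ 2 : ℚ) = (ℓ : ℚ) := by
    apply (algebraMap ℚ M).injective
    rw [map_pow, hq, hr, map_natCast]
  have h5 : Irrational (√(ℓ : ℝ)) := hℓ.irrational_sqrt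
  apply h5
  refine ⟨|q|, ?_⟩
  have h6 : ((q : ℝ)) ^ 2 = (ℓ : ℝ) := by exact_mod_cast h4
  rw [← h6, Real.sqrt_sq_eq_abs]
  simp

/-- The root number of a product is the product of the root numbers. -/
theorem root_prod {F : Type} [Field F] [NumberField F] {n : ℕ} (a : Fin n → ℕ)
    (w : Fin n → HeightOneSpectrum (𝓞 F) → ℤ) (hw : ∀ i, {v | w i v ≠ 1}.Finite)
    (h1 : ∀ i, Pool.Agent.N922.PX.rootNumber F (w i) = 1) : rootNumber F a w = 1 := by
  have hw' : ∀ i, (Function.mulSupport (w i)).Finite := fun i => hw i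
  have e1 : ∏ᶠ v, localA F a w v = ∏ i, (∏ᶠ v, w i v) ^ a i := by
    have e2 : ∏ᶠ v, localA F a w v = ∏ i, ∏ᶠ v, w i v ^ a i := by
      unfold localA
      refine finprod_prod_comm Finset.univ (fun v i => w i v ^ a i) fun i _ => ?_
      refine (hw i).subset fun v hv h2 => hv ?_
      show w i v ^ a i = 1
      rw [h2, one_pow]
    rw [e2]
    exact Finset.prod_congr rfl fun i _ => (finprod_pow (hw' i) (a i)).symm
  have e3 : ((-1 : ℤ) ^ ∑ i, a i) ^ Nat.card (InfinitePlace F) =
      ∏ i, ((-1 : ℤ) ^ Nat.card (InfinitePlace F)) ^ a i := by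
    rw [← pow_mul, mul_comm, pow_mul, Finset.prod_pow_eq_pow_sum]
  unfold rootNumber
  rw [e1, e3, ← Finset.prod_mul_distrib]
  refine Finset.prod_eq_one fun i _ => ?_
  have h3 : (-1 : ℤ) ^ Nat.card (InfinitePlace F) * ∏ᶠ v, w i v = 1 := h1 i
  rw [← mul_pow, h3, one_pow]

/-- Let `n ≥ 1` and let `K / ℚ` be a Galois extension of degree `2 ^ m`, `m ≥ 1`, in which `2` is unramified
(that is, no prime ideal `𝔭` of `K` has `2 ∈ 𝔭 ^ 2`) and not inert (that is, the ideal `(2)` is not
prime). There are a finite set `S` of primes, all `1` modulo `8`, and `c > 0` such that for all large `X` at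
least `c` times the number of all `n`-tuples of elliptic curves `E_i` over `ℚ` of height at most `X` have the
property `Good K S`: `K` is in the common class, the class is closed under composita and contains `ℚ(√ℓ)` for
a set of primes `ℓ` of positive lower density, and ALL the abelian varieties
`A = E_1 ^ {a_1} × ⋯ × E_n ^ {a_n}` satisfy the parity conjecture over ALL the fields `M` in the class,
`(-1) ^ rk A(M) = w(A / M)`, with `A(M) = 0` and `w(A / M) = 1`. -/
theorem result (n : ℕ) (hn : 1 ≤ n) (K : Type) [Field K] [NumberField K] [IsGalois ℚ K] (m : ℕ)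
    (h1 : 1 ≤ m) (hm : Module.finrank ℚ K = 2 ^ m)
    (h2 : ∀ 𝔭 : Ideal (𝓞 K), 𝔭.IsPrime → (2 : 𝓞 K) ∉ 𝔭 ^ 2)
    (h3 : ¬ (Ideal.span {(2 : 𝓞 K)}).IsPrime) :
    (∀ X : ℕ, (Curves X).Finite) ∧
    ∃ S : Finset ℕ, (∀ q ∈ S, q.Prime ∧ q % 8 = 1) ∧ ∃ c : ℝ, 0 < c ∧ ∀ᶠ X : ℕ in atTop,
      0 < (Curves X).ncard ∧
      c * ((Curves X).ncard : ℝ) ^ n ≤ ((GoodTuples K S n X).ncard : ℝ) := by
  have hset : ∀ X : ℕ, Curves X = {p : ℤ × ℤ | Pool.Agent.N922.PQ.Crv X p.1 p.2} := by
    intro X
    ext p
    exact (crv_iff X p).symm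
  have hfin : ∀ X : ℕ, (Curves X).Finite := fun X => by
    rw [hset]
    exact Pool.Agent.N922.PQ.crv_fin X
  refine ⟨hfin, ?_⟩
  obtain ⟨S, hS, c, hc, X₀, h⟩ := Pool.Agent.U845.UP.finalP K hm h2
  have hSp : ∀ Q ∈ S, Pool.Agent.N922.PQ.IsPr Q := fun Q hQ => (hS Q hQ).1
  refine ⟨S.image Int.toNat, ?_, c ^ n, pow_pos hc n, ?_⟩
  · intro q hq
    obtain ⟨Q, hQ, rfl⟩ := Finset.mem_image.1 hq
    obtain ⟨h3, h4⟩ := hS Q hQ
    have e : ((Q.toNat : ℕ) : ℤ) = Q := Int.toNat_of_nonneg h3.1.le
    refine ⟨isPr_iff.1 (by rw [e]; exact h3), by omega⟩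
  filter_upwards [eventually_ge_atTop (max X₀ 27)] with X hX
  refine ⟨(Set.ncard_pos (hfin X)).2 ⟨_, nonempty ((le_max_right _ _).trans hX)⟩, ?_⟩
  have h4 := (h X ((le_max_left _ _).trans hX)).2
  rw [← hset] at h4
  set G : Set (ℤ × ℤ) := {p : ℤ × ℤ | Pool.Agent.N922.PQ.Crv X p.1 p.2 ∧
      (Pool.Agent.U693.UN.InClass S p.1 p.2 K ∧
        (∀ z : ℤ, ¬ (2 : ℤ) ∣ z ^ 3 + p.1 * z + p.2) ∧
        ∀ (M : Type) [Field M] [NumberField M], Pool.Agent.U693.UN.InClass S p.1 p.2 M →
          Pool.Agent.N922.PQ.GoodV (M := M) (𝓞 M) p ∧ (1 < Module.finrank ℚ M →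
            ¬ (Ideal.span {(2 : 𝓞 M)}).IsPrime → ∀ w : HeightOneSpectrum (𝓞 M) → ℤ,
              Pool.Agent.N922.PX.LocalRootNumbers M (Pool.Agent.N922.PX.curve p) w →
                Pool.Agent.N922.PX.rootNumber M w = 1))} with hG
  have hGf : G.Finite := (hfin X).subset fun p hp => (crv_iff X p).1 hp.1
  have hcard := Pool.Agent.U693.QN.card_tuples hGf n
  have h5 : c ^ n * ((Curves X).ncard : ℝ) ^ n ≤
      (({p : Fin n → ℤ × ℤ | ∀ i, p i ∈ G}).ncard : ℝ) := by
    rw [hcard, ← mul_pow]
    push_cast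
    exact pow_le_pow_left₀ (mul_nonneg hc.le (Nat.cast_nonneg _)) h4 n
  refine h5.trans ?_
  have hdK : 1 < Module.finrank ℚ K := by
    rw [hm]
    exact Nat.one_lt_two_pow (by omega)
  have h6 : {p : Fin n → ℤ × ℤ | ∀ i, p i ∈ G} ⊆ GoodTuples K (S.image Int.toNat) n X := by
    intro p hp
    have hpC : ∀ i, p i ∈ Curves X := fun i => (crv_iff X (p i)).1 (hp i).1
    have hK : Pool.Agent.U693.QN.InT S p K := fun i => (hp i).2.1
    refine ⟨hpC, ?_⟩
    refine ⟨(class_iff hn hSp p K).2 ⟨hK, hdK, h3⟩, ?_, ?_, ?_⟩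
    · intro M₁ M₂ N _ _ _ _ _ _ _ _ hg h₁ h₂
      obtain ⟨h₁', hd₁, hi₁⟩ := (class_iff hn hSp p M₁).1 h₁
      obtain ⟨h₂', hd₂, hi₂⟩ := (class_iff hn hSp p M₂).1 h₂
      refine (class_iff hn hSp p N).2 ⟨Pool.Agent.U693.QN.InT.comp hn hSp hg h₁' h₂', ?_,
        Pool.Agent.U845.UP.not_inert_comp hi₁⟩
      have e : Module.finrank ℚ M₁ ≤ Module.finrank ℚ N :=
        LinearMap.finrank_le_finrank_of_injective
          (f := ((algebraMap M₁ N).toRatAlgHom).toLinearMap) (algebraMap M₁ N).injective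
      omega
    · obtain ⟨δ, hδ, hev⟩ := Pool.Agent.U693.QN.densT hn (p := p) (insert 2 S) (fun Q hQ => by
        rcases Finset.mem_insert.1 hQ with rfl | hQ
        · norm_num
        · exact (hSp Q hQ).2.ne_zero) (fun i => (hp i).2.2.1)
      refine ⟨δ, hδ, ?_⟩
      filter_upwards [hev] with N hN
      refine hN.trans ?_
      have hsub : ((Finset.range (N + 1)).filter fun ℓ => ℓ.Prime ∧
          Pool.Agent.U693.QN.TpT p (insert 2 S) ℓ) ⊆
            ((Finset.range (N + 1)).filter fun ℓ => ℓ.Prime ∧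
              HasQuadratic (S.image Int.toNat) p ℓ) := by
        intro ℓ hℓ
        rw [Finset.mem_filter] at hℓ ⊢
        have hT : ∀ i, Pool.Agent.U693.UN.Tp (p i).1 (p i).2 S ℓ ∧ ℓ % 8 = 1 := fun i =>
          Pool.Agent.U845.UP.tp_insert hℓ.2.1 (hℓ.2.2 i)
        have hq := Pool.Agent.U693.QN.quadT hS hℓ.2.1 (fun i => (hT i).1)
        refine ⟨hℓ.1, hℓ.2.1, ?_⟩
        intro M _ _ r hr hgen
        exact (class_iff hn hSp p M).2 ⟨hq M r (by rw [hr, Int.cast_natCast]) hgen,
          quad_deg hℓ.2.1 hr, Pool.Agent.U845.UP.quad_not_inert hℓ.2.1 (hT ⟨0, hn⟩).2 hr⟩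
      exact_mod_cast Finset.card_le_card hsub
    · intro M _ _ hM a
      obtain ⟨hM', hd, hi⟩ := (class_iff hn hSp p M).1 hM
      have k0 : ∀ i, Subsingleton (Pts M (p i)) := by
        intro i
        obtain ⟨⟨-, hpt, -⟩, -⟩ := (hp i).2.2.2 M (hM' i)
        have e : (Pool.Agent.N874.PP.sW ((p i).1 : M) ((p i).2 : M)).baseChange M =
            (curve (p i)).baseChange M := by
          apply WeierstrassCurve.ext <;>
            simp [Pool.Agent.N874.PP.sW, curve, WeierstrassCurve.baseChange]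
        have key : ∀ W : WeierstrassCurve M,
            (Pool.Agent.N874.PP.sW ((p i).1 : M) ((p i).2 : M)).baseChange M = W →
            Subsingleton W.toAffine.Point := by
          rintro W rfl
          exact hpt
        exact key _ e
      have k1 : Subsingleton (PtsA M p a) := by
        haveI := k0
        infer_instance
      have k2 : rank M p a = 0 := Module.finrank_zero_of_subsingleton
      have k4 : ∀ w : Fin n → HeightOneSpectrum (𝓞 M) → ℤ,
          (∀ i, LocalRootNumbers M (curve (p i)) (w i)) → ∀ i, {v | w i v ≠ 1}.Finite := by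
        intro w h6 i
        have hc : (2 * (4 * (p i).1 ^ 3 + 27 * (p i).2 ^ 2) : ℤ) ≠ 0 :=
          mul_ne_zero two_ne_zero (hpC i).1.elliptic
        obtain ⟨r1, r2, -⟩ := Pool.Agent.N878.PX.t_rd M
        refine (r2 _ hc).subset fun v hv h7 => hv ?_
        exact (h6 i).good v ((good_iff v _).2 (r1 (p i) v h7))
      have k3 : ∀ w : Fin n → HeightOneSpectrum (𝓞 M) → ℤ,
          (∀ i, LocalRootNumbers M (curve (p i)) (w i)) → rootNumber M a w = 1 := fun w h6 =>
        root_prod a w (k4 w h6) fun i =>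
          ((hp i).2.2.2 M (hM' i)).2 hd hi (w i) ((local_iff (p i) (w i)).1 (h6 i))
      have k5 : ∀ i, ∃ w, LocalRootNumbers M (curve (p i)) w := by
        intro i
        obtain ⟨w, hw'⟩ := Pool.Agent.N922.PX.exists_local M (Pool.Agent.N922.PX.curve (p i))
        exact ⟨w, (local_iff (p i) w).2 hw'⟩
      choose w hw using k5
      refine ⟨k1, ⟨w, hw⟩, k4, k3, fun w h6 => ?_⟩
      rw [k2, pow_zero, k3 w h6]
  have hfin2 : (GoodTuples K (S.image Int.toNat) n X).Finite :=
    (Set.Finite.pi' fun _ => hfin X).subset fun p hp => hp.1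
  exact Nat.cast_le.2 (Set.ncard_le_ncard h6 hfin2)

end Pool.Agent.Results.MP_ac3185_nt.ProductsOverInfiniteClass
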