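import Mathlib
import Pool.Agent.U880.RN.Abs
import Pool.Agent.U707.Old.ArbitraryPrimeSets

/-!
# The parity conjecture for elliptic curves over all the multiquadratic fields built from an ARBITRARY set of
# primes

The case of dimension one of the problem. (By restriction of scalars it gives abelian varieties over `ℚ` of
arbitrarily high dimension: `Res_{K/ℚ} E_D` has the rank and the root number of `E_D` over `K`.)

`E : y² = x³ + a x² + b x`, an elliptic curve over `ℚ` with a rational point of order two (`b ≠ 0` and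
`c = a² - 4 b ≠ 0`), and `E_D : y² = x³ + a D x² + b D² x` its quadratic twists. A prime is split if it is `1`
modulo `8` and a nonzero square modulo the odd primes dividing `b c`, and inert if it is odd and neither `b`
nor `c` is a square modulo it. `D` is a squarefree product of split and inert primes which is itself `1`
modulo `8` and a nonzero square modulo the odd primes dividing `b c`. A split or inert prime `p` is
*admissible* for `D` if `t⁴ + a D t² + b D²` has no root modulo `p` (all the inert primes not dividing `D` are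
admissible, and there are infinitely many of them). Nothing at all is assumed on the sets `S` of primes below
(they may be arbitrarily sparse). For a set `T` of primes we consider the number fields `K` that are generated
by the square roots of `n` products of evenly many elements of `T` (`Layer T n K`; the subfields of finite
degree of the field generated by all the `√(p p')`, `p, p' ∈ T`).

Let neither `b` nor `c` be a square and `#Sel(E) · #Sel'(E) = 4` for the Selmer groups of the isogenies of
degree two (for example `X_0(14)`: `a = 13`, `b = 128`), and let `E_D(ℚ)` be finite and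
`Ш(E_D/ℚ)[2^∞] = 0` (true for `D = 1`).

* A set `S` of split or inert primes contains an infinite subset `T` such that all the twists `E_{D ∏ A}`,
  `A ⊆ T` finite with an even number of elements, have finitely many rational points and `Ш[2^∞] = 0`, and
  such that for ALL the fields `K` of `T` the group `E_D(K)` is finite, `Ш(E_D/K)[2^∞]` is killed by `2 ^ n`,
  and, if `[K : ℚ] ≥ 4`, the parity conjecture `(-1) ^ rk E_D(K) = w(E_D/K)` holds (both sides are `1`), if
  and only if infinitely many elements of `S` are admissible for `D`.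
* For all `E` and `D` (no hypothesis on the Selmer groups): `S` contains an infinite `T` such that the
  `E_{D ∏ A}` have Selmer groups of the same sizes as those of `E_D`, the root number `w(E_D/K)` is `1` for all
  the fields `K` of `T` of degree at least four, and `rk E_D(K) ≤ 2 ^ n · log₂ (#Sel(E_D) #Sel'(E_D) / 4)` for
  all the fields of `T`, if and only if infinitely many elements of `S` are admissible.

The local root numbers `w(E / K_v)` are signs; they are `1` if `E` has good reduction at `v` and `-1` if `E` has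
split multiplicative reduction at `v`; and since `E` is defined over `ℚ` they are the same for conjugate
primes. These properties are all that we use, that is, we prove the equality for every function `w` with
these properties (definitions of helper922, as in the starting result `MP_02f36d_nt/ParityOverTwoExtensions`).

The proof. The finiteness over `K` and the theorem of Ramsey type are helper707's
`MP_e23604_nt/ArbitraryPrimeSets` (descent: helper115 and others; passage to fields: helper747). In the
product of the local root numbers over the field `K`, generated by square roots of numbers `m ≡ 1 mod 8`, only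
the primes stable under the Galois group matter; over the ramified primes the reduction is good, and the
other primes are not stable if `[K : ℚ] ≥ 4` (`U880/RN/Abs`, the method of helper80's `U80/PT`).
-/

set_option autoImplicit false

open scoped Classical

open WeierstrassCurve NumberField IsDedekindDomain

namespace Pool.Agent.Results.MP_ac3185_nt.TowersFromPrimeSets

open Pool.Agent.TH841.NF.D (Sha rk)
open Pool.Agent.N922.PX (LocalRootNumbers rootNumber)
open Pool.Agent.Results.MP_e23604_nt.ArbitraryPrimeSets (curve E Sel sel sel' Inert SplitOrInert Class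
  Admissible SameSelmer TrivialTwo ForAllEven Layer)

/-- only finitely many local root numbers of `E_D` over `K` are not `1`, and their product `w(E_D/K)` is `1`,
for every system `w` of local root numbers -/
def RootNumberOne (a b : ℤ) (D : ℕ) (K : Type) [Field K] [NumberField K] : Prop :=
  ∀ w, LocalRootNumbers K (E a b D) w → {v | w v ≠ 1}.Finite ∧ rootNumber K w = 1

/-- the parity conjecture holds for `E_D` over `K`, for every system of local root numbers (such systems
exist) -/
def Parity (a b : ℤ) (D : ℕ) (K : Type) [Field K] [NumberField K] : Prop :=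
  (∃ w, LocalRootNumbers K (E a b D) w) ∧
    ∀ w, LocalRootNumbers K (E a b D) w → (-1) ^ rk (curve a b D K) = rootNumber K w

section proof

variable {a b : ℤ} {D : ℕ}

theorem E_eq (a b : ℤ) (D : ℕ) : E a b D = Pool.Agent.U80.PT.E2 (a * D) (b * D ^ 2) ℚ := by
  unfold Pool.Agent.Results.MP_e23604_nt.ArbitraryPrimeSets.E
    Pool.Agent.Results.MP_e23604_nt.ArbitraryPrimeSets.curve Pool.Agent.U80.PT.E2
  push_cast
  rfl

theorem ndvd {p : ℕ} (h : SplitOrInert a b p) : p ≠ 2 ∧ ¬ (p : ℤ) ∣ b * (a ^ 2 - 4 * b) := by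
  obtain ⟨hp, h | h⟩ := h
  · have h2 : p ≠ 2 := by
      rintro rfl
      have := h.1
      omega
    exact ⟨h2, fun hd => (h.2 p hp h2 hd).1 dvd_rfl⟩
  · refine ⟨h.1, fun hd => ?_⟩
    rcases (Nat.prime_iff_prime_int.1 hp).dvd_or_dvd hd with h3 | h3
    · apply h.2.1
      rw [(ZMod.intCast_zmod_eq_zero_iff_dvd _ _).2 h3]
      exact IsSquare.zero
    · apply h.2.2
      rw [(ZMod.intCast_zmod_eq_zero_iff_dvd _ _).2 h3]
      exact IsSquare.zero

/-- the primes of `T` do not divide `D` -/
theorem ndvd_D {T : Set ℕ} (hTi : T.Infinite) (hT : ∀ p ∈ T, p.Prime)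
    (h : ForAllEven T D (Class a b)) : ∀ p ∈ T, ¬ p ∣ D := by
  intro p hp hd
  obtain ⟨p', hp', hlt⟩ := hTi.exists_gt p
  have h1 := (h {p, p'} (by
    intro x hx
    rw [Finset.coe_pair] at hx
    rcases hx with rfl | hx
    · exact hp
    · rw [Set.mem_singleton_iff.1 hx]
      exact hp') (by rw [Finset.card_pair hlt.ne]; exact even_two)).1
  rw [Finset.prod_pair hlt.ne] at h1
  have h2 := h1 p (by
    obtain ⟨k, hk⟩ := hd
    exact ⟨k * p', by rw [hk]; ring⟩)
  exact (hT p hp).one_lt.ne' (Nat.isUnit_iff.1 h2)

theorem root_layer (hb : b ≠ 0) (hc : a ^ 2 - 4 * b ≠ 0) (hD : Class a b D) {T : Set ℕ}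
    (hTi : T.Infinite) (hT : ∀ p ∈ T, SplitOrInert a b p) (h : ForAllEven T D (Class a b)) {n : ℕ}
    {K : Type} [Field K] [NumberField K] (hK : Layer T n K) (h4 : 4 ≤ Module.finrank ℚ K) :
    RootNumberOne a b D K := by
  intro w hw
  obtain ⟨r, A, hA, hgen⟩ := hK
  have hD0 : (D : ℤ) ≠ 0 := by exact_mod_cast hD.1.ne_zero
  have e : 16 * (b * (D : ℤ) ^ 2) ^ 2 * ((a * D) ^ 2 - 4 * (b * (D : ℤ) ^ 2)) =
      16 * b ^ 2 * (a ^ 2 - 4 * b) * (D : ℤ) ^ 6 := by ring
  have hnd := ndvd_D hTi (fun p hp => (hT p hp).1) h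
  rw [E_eq] at hw
  refine Pool.Agent.U880.RN.root_one (r := r) (m := fun i => ∏ p ∈ A i, p)
    (fun i => (hA i).2.2) (fun i => ?_) hgen h4 (A := a * D) (B := b * (D : ℤ) ^ 2) ?_ (fun i => ?_) hw
  · have h1 := (h (A i) (hA i).1 (hA i).2.1).2.1.1
    have h2 := hD.2.1.1
    rw [Nat.mul_mod, h2, one_mul, Nat.mod_mod] at h1
    exact h1
  · rw [e]
    exact mul_ne_zero (mul_ne_zero (mul_ne_zero (by norm_num) (pow_ne_zero _ hb)) hc)
      (pow_ne_zero _ hD0)
  · rw [e]
    push_cast
    refine IsCoprime.prod_left fun p hp => ?_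
    have hpT := (hA i).1 (Finset.mem_coe.2 hp)
    have hpp : Prime (p : ℤ) := Nat.prime_iff_prime_int.1 (hT p hpT).1
    obtain ⟨h2, hbc⟩ := ndvd (hT p hpT)
    rw [hpp.irreducible.coprime_iff_not_dvd]
    intro hd
    rcases hpp.dvd_or_dvd hd with hd | hd
    · rcases hpp.dvd_or_dvd hd with hd | hd
      · rcases hpp.dvd_or_dvd hd with hd | hd
        · have h7 : p ∣ 2 ^ 4 := by
            have : p ∣ 16 := by exact_mod_cast hd
            norm_num
            exact this
          exact h2 ((Nat.prime_dvd_prime_iff_eq (hT p hpT).1 Nat.prime_two).1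
            ((hT p hpT).1.dvd_of_dvd_pow h7))
        · exact hbc ((hpp.dvd_of_dvd_pow hd).mul_right _)
      · exact hbc (hd.mul_left _)
    · exact hnd p hpT (by exact_mod_cast hpp.dvd_of_dvd_pow hd)

theorem rk_zero {K : Type} [Field K] [NumberField K] (hb : b ≠ 0) (hc : a ^ 2 - 4 * b ≠ 0)
    (hD : D ≠ 0) (h : Finite (curve a b D K).toAffine.Point) : rk (curve a b D K) = 0 := by
  have hDK : (D : K) ≠ 0 := by exact_mod_cast hD
  refine (Pool.Agent.U115.XP.fin_wc K ((a : K) * (D : K)) ((b : K) * (D : K) ^ 2) ?_ ?_).2 h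
  · exact mul_ne_zero (by exact_mod_cast hb) (pow_ne_zero 2 hDK)
  · have e : ((a : K) * (D : K)) ^ 2 - 4 * ((b : K) * (D : K) ^ 2) =
        ((a ^ 2 - 4 * b : ℤ) : K) * (D : K) ^ 2 := by
      push_cast
      ring
    rw [e]
    exact mul_ne_zero (by exact_mod_cast hc) (pow_ne_zero 2 hDK)

end proof

/-- **The parity conjecture over the multiquadratic fields built from an arbitrary set of primes.** -/
theorem result :
    (∀ a b : ℤ, b ≠ 0 → a ^ 2 - 4 * b ≠ 0 → ∀ D : ℕ, Class a b D → ∀ S : Set ℕ,
      (∀ p ∈ S, SplitOrInert a b p) →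
      ({p ∈ S | Admissible a b D p}.Infinite ↔
        ∃ T ⊆ S, T.Infinite ∧ ForAllEven T D (SameSelmer a b D) ∧
          ∀ (n : ℕ) (K : Type) [Field K] [NumberField K], Layer T n K →
            rk (curve a b D K) ≤ 2 ^ n * Nat.log 2 (sel a b D * sel' a b D / 4) ∧
            (4 ≤ Module.finrank ℚ K → RootNumberOne a b D K))) ∧
    (∀ a b : ℤ, ¬ IsSquare b → ¬ IsSquare (a ^ 2 - 4 * b) →
      (Sel a b).ncard * (Sel (-2 * a) (a ^ 2 - 4 * b)).ncard = 4 →
      {q : ℕ | q.Prime ∧ Inert a b q}.Infinite ∧
      (∀ D q : ℕ, Class a b D → q.Prime → Inert a b q → ¬ q ∣ D → Admissible a b D q) ∧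
      Class a b 1 ∧ TrivialTwo a b 1 ∧
      ∀ D : ℕ, Class a b D → TrivialTwo a b D → ∀ S : Set ℕ, (∀ p ∈ S, SplitOrInert a b p) →
        ({p ∈ S | Admissible a b D p}.Infinite ↔
          ∃ T ⊆ S, T.Infinite ∧ ForAllEven T D (TrivialTwo a b) ∧
            ∀ (n : ℕ) (K : Type) [Field K] [NumberField K], Layer T n K →
              Finite (curve a b D K).toAffine.Point ∧
              (∀ (k : ℕ) (x : Sha (curve a b D K)), 2 ^ k • x = 0 → 2 ^ n • x = 0) ∧
              (4 ≤ Module.finrank ℚ K → RootNumberOne a b D K ∧ Parity a b D K))) ∧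
    (Sel 13 128).ncard * (Sel (-2 * 13) (13 ^ 2 - 4 * 128)).ncard = 4 := by
  have hr := Pool.Agent.Results.MP_e23604_nt.ArbitraryPrimeSets.result
  refine ⟨fun a b hb hc D hD S hS => ?_, fun a b nb nc h4 => ?_,
    (hr 1 1 (by norm_num) (by norm_num)).2.2⟩
  · obtain ⟨-, g2, g3, -⟩ := (hr a b hb hc).1 D hD
    refine ((g2 S hS).out 0 1).trans ⟨?_, ?_⟩
    · rintro ⟨T, hT, h2, h3⟩
      refine ⟨T, hT, h2, h3, fun n K _ _ hK => ⟨g3 T (fun p hp => (hS p (hT hp)).1) h3 n K hK,
        fun h4 => ?_⟩⟩
      exact root_layer hb hc hD h2 (fun p hp => hS p (hT hp)) (fun A hA he => (h3 A hA he).1) hK h4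
    · rintro ⟨T, hT, h2, h3, -⟩
      exact ⟨T, hT, h2, h3⟩
  · have hb : b ≠ 0 := by
      rintro rfl
      exact nb ⟨0, by norm_num⟩
    have hc : a ^ 2 - 4 * b ≠ 0 := by
      intro h
      exact nc ⟨0, by rw [h]; norm_num⟩
    obtain ⟨g0, g1, -⟩ := hr a b hb hc
    obtain ⟨i1, i2⟩ := g1 nb nc
    obtain ⟨j1, j2, j3⟩ := i2 h4
    refine ⟨i1, fun D q hD hq hi hd => (g0 D hD).2.2.2 q hq hi hd, j1, j2, fun D hD hT S hS => ?_⟩
    obtain ⟨k1, k2, k3⟩ := j3 D hD hT
    constructor
    · intro h
      obtain ⟨T, hTS, h2, h3⟩ := (((g0 D hD).2.1 S hS).out 0 1).1 h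
      have hTT : ForAllEven T D (TrivialTwo a b) := fun A hA he => k1 _ (h3 A hA he)
      have hcl : ForAllEven T D (Class a b) := fun A hA he => (h3 A hA he).1
      have hnd := ndvd_D h2 (fun p hp => (hS p (hTS hp)).1) hcl
      refine ⟨T, hTS, h2, hTT, fun n K _ _ hK => ?_⟩
      obtain ⟨l1, l2⟩ := k3 T (fun p hp => ⟨(hS p (hTS hp)).1, hnd p hp⟩) hTT n K hK
      refine ⟨l1, l2, fun h4 => ?_⟩
      have hR := root_layer hb hc hD h2 (fun p hp => hS p (hTS hp)) hcl hK h4
      refine ⟨hR, Pool.Agent.N922.PX.exists_local K _, fun w hw => ?_⟩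
      rw [rk_zero hb hc hD.1.ne_zero l1, pow_zero, (hR w hw).2]
    · rintro ⟨T, hTS, h2, h3, -⟩
      exact (k2 S hS).2 ⟨T, hTS, h2, h3⟩

end Pool.Agent.Results.MP_ac3185_nt.TowersFromPrimeSets
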